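import Mathlib

/-
Group lemma of CPT + counting <> P (MP_128e7d_lc, notes 3281 / 3282, step (1)).
In a product of perfect groups every subgroup of index at most q contains all the factors
with at most 2 log_2 q exceptions.
-/

namespace Pool.Agent.Hhelper38.CPT.Grp

open Subgroup
open scoped commutatorElement

variable {I : Type*} [Fintype I] [DecidableEq I] {Gam : I → Type*} [∀ i, Group (Gam i)]

/-- upper projection: elements `a` of `Gam i` that occur as the `i`-th coordinate of an element
of `H` whose coordinates `j`, `lt i j`, are trivial -/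
def Up (lt : I → I → Prop) (H : Subgroup (∀ i, Gam i)) (i : I) (a : Gam i) : Prop :=
  ∃ h ∈ H, h i = a ∧ ∀ j, lt i j → h j = 1

open Classical in
theorem pow_card_le_index (lt : I → I → Prop) [IsStrictTotalOrder I lt]
    (H : Subgroup (∀ i, Gam i)) (hH : H.index ≠ 0) (A : Finset I) (a : ∀ i, Gam i)
    (ha : ∀ i ∈ A, ¬ Up lt H i (a i)) : 2 ^ A.card ≤ H.index := by
  classical
  have hfin : Finite ((∀ i, Gam i) ⧸ H) := by
    have : H.FiniteIndex := ⟨hH⟩
    infer_instance
  let x : Finset I → (∀ i, Gam i) := fun S i => if i ∈ S then a i else 1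
  have key : ∀ S ∈ A.powerset, ∀ S' ∈ A.powerset, ((x S : (∀ i, Gam i)) : (∀ i, Gam i) ⧸ H)
      = (x S' : (∀ i, Gam i)) → S = S' := by
    intro S hS S' hS' hxx
    by_contra hne
    have hmem : (x S)⁻¹ * x S' ∈ H := QuotientGroup.eq.mp hxx
    have hne' : (symmDiff S S').Nonempty := by
      rw [Finset.nonempty_iff_ne_empty]
      intro h
      exact hne (symmDiff_eq_bot.mp h)
    obtain ⟨i, hi, hmax⟩ : ∃ i ∈ symmDiff S S', ∀ j ∈ symmDiff S S', ¬ lt i j := by
      have hwf : WellFounded (fun a b => lt b a) := Finite.wellFounded_of_trans_of_irrefl _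
      obtain ⟨i, hi, hm⟩ := hwf.has_min (↑(symmDiff S S') : Set I) hne'
      exact ⟨i, hi, fun j hj => hm j hj⟩
    have hup : Up lt H i (((x S)⁻¹ * x S') i) := by
      refine ⟨_, hmem, rfl, ?_⟩
      intro j hj
      have hjs : j ∉ symmDiff S S' := fun h => hmax j h hj
      rw [Finset.mem_symmDiff] at hjs
      push Not at hjs
      simp only [Pi.mul_apply, Pi.inv_apply, x]
      by_cases h1 : j ∈ S
      · have h2 : j ∈ S' := by
          by_contra h2; exact h2 (hjs.1 h1)
        simp [h1, h2]
      · have h2 : j ∉ S' := by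
          intro h2; exact h1 (hjs.2 h2)
        simp [h1, h2]
    rw [Finset.mem_symmDiff] at hi
    rcases hi with ⟨h1, h2⟩ | ⟨h1, h2⟩
    · have hA : i ∈ A := (Finset.mem_powerset.mp hS) h1
      apply ha i hA
      obtain ⟨h, hh, h3, h4⟩ := hup
      refine ⟨h⁻¹, H.inv_mem hh, ?_, ?_⟩
      · rw [Pi.inv_apply, h3]
        simp [x, h1, h2]
      · intro j hj
        rw [Pi.inv_apply, h4 j hj, inv_one]
    · have hA : i ∈ A := (Finset.mem_powerset.mp hS') h1
      apply ha i hA
      obtain ⟨h, hh, h3, h4⟩ := hup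
      refine ⟨h, hh, ?_, h4⟩
      rw [h3]
      simp [x, h1, h2]
  have hinj : Set.InjOn (fun S => ((x S : (∀ i, Gam i)) : (∀ i, Gam i) ⧸ H))
      (↑A.powerset : Set (Finset I)) := by
    intro S hS S' hS' h
    exact key S (by simpa using hS) S' (by simpa using hS') h
  have hF : Fintype ((∀ i, Gam i) ⧸ H) := Fintype.ofFinite _
  have := Finset.card_le_card_of_injOn (t := (Finset.univ : Finset ((∀ i, Gam i) ⧸ H)))
    (fun S => ((x S : (∀ i, Gam i)) : (∀ i, Gam i) ⧸ H)) (fun _ _ => Finset.mem_univ _) hinj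
  rw [Finset.card_powerset, Finset.card_univ] at this
  rwa [Subgroup.index, Nat.card_eq_fintype_card]

/-- The group lemma for products of perfect groups. -/
theorem card_bad_le (hperf : ∀ i, commutator (Gam i) = ⊤) (H : Subgroup (∀ i, Gam i))
    (r : ℕ) (h0 : H.index ≠ 0) (hr : H.index ≤ 2 ^ r) (J : Finset I)
    (hJ : ∀ i ∈ J, ¬ ∀ a : Gam i, Pi.mulSingle i a ∈ H) : J.card ≤ 2 * r := by
  classical
  obtain ⟨e⟩ : Nonempty (I ≃ Fin (Fintype.card I)) := ⟨Fintype.equivFin I⟩
  let lt : I → I → Prop := fun i j => e i < e j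
  let gt : I → I → Prop := fun i j => e j < e i
  have i1 : IsStrictTotalOrder I lt :=
    { irrefl := fun i => lt_irrefl (e i)
      trans := fun i j k h1 h2 => lt_trans h1 h2
      trichotomous := fun i j h1 h2 => e.injective (le_antisymm (not_lt.mp h2) (not_lt.mp h1)) }
  have i2 : IsStrictTotalOrder I gt :=
    { irrefl := fun i => lt_irrefl (e i)
      trans := fun i j k h1 h2 => lt_trans h2 h1
      trichotomous := fun i j h1 h2 => e.injective (le_antisymm (not_lt.mp h1) (not_lt.mp h2)) }
  let A : Finset I := J.filter (fun i => ∃ a : Gam i, ¬ Up lt H i a)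
  let B : Finset I := J.filter (fun i => ∃ a : Gam i, ¬ Up gt H i a)
  have hA : A.card ≤ r := by
    have hex : ∀ i : I, ∃ a : Gam i, i ∈ A → ¬ Up lt H i a := by
      intro i
      by_cases hi : i ∈ A
      · obtain ⟨a, ha⟩ := (Finset.mem_filter.mp hi).2
        exact ⟨a, fun _ => ha⟩
      · exact ⟨1, fun h => absurd h hi⟩
    choose a ha using hex
    have := pow_card_le_index lt H h0 A a (fun i hi => ha i hi)
    exact (Nat.pow_le_pow_iff_right (by norm_num)).mp (this.trans hr)
  have hB : B.card ≤ r := by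
    have hex : ∀ i : I, ∃ a : Gam i, i ∈ B → ¬ Up gt H i a := by
      intro i
      by_cases hi : i ∈ B
      · obtain ⟨a, ha⟩ := (Finset.mem_filter.mp hi).2
        exact ⟨a, fun _ => ha⟩
      · exact ⟨1, fun h => absurd h hi⟩
    choose a ha using hex
    have := pow_card_le_index gt H h0 B a (fun i hi => ha i hi)
    exact (Nat.pow_le_pow_iff_right (by norm_num)).mp (this.trans hr)
  have hsub : J ⊆ A ∪ B := by
    intro i hi
    by_contra hn
    rw [Finset.mem_union, not_or] at hn
    obtain ⟨hnA, hnB⟩ := hn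
    have h1 : ∀ a : Gam i, Up lt H i a := by
      by_contra hc
      push Not at hc
      exact hnA (Finset.mem_filter.mpr ⟨hi, hc⟩)
    have h2 : ∀ a : Gam i, Up gt H i a := by
      by_contra hc
      push Not at hc
      exact hnB (Finset.mem_filter.mpr ⟨hi, hc⟩)
    apply hJ i hi
    have hle : commutator (Gam i) ≤ H.comap (MonoidHom.mulSingle Gam i) := by
      rw [commutator_eq_closure, Subgroup.closure_le]
      rintro c ⟨a, b, rfl⟩
      obtain ⟨h, hh, hha, hh1⟩ := h1 a
      obtain ⟨k, hk, hkb, hk1⟩ := h2 b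
      have hc : ⁅h, k⁆ ∈ H := by
        rw [commutatorElement_def]
        exact H.mul_mem (H.mul_mem (H.mul_mem hh hk) (H.inv_mem hh)) (H.inv_mem hk)
      have : ⁅h, k⁆ = MonoidHom.mulSingle Gam i ⁅a, b⁆ := by
        funext j
        rw [commutatorElement_def, MonoidHom.mulSingle_apply]
        simp only [Pi.mul_apply, Pi.inv_apply]
        by_cases hji : j = i
        · subst hji
          rw [Pi.mulSingle_eq_same, hha, hkb, commutatorElement_def]
        · rw [Pi.mulSingle_eq_of_ne hji]
          have hne : e j ≠ e i := fun h => hji (e.injective h)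
          rcases lt_or_gt_of_ne hne with hlt | hgt
          · rw [hk1 j hlt]; simp
          · rw [hh1 j hgt]; simp
      rw [SetLike.mem_coe, Subgroup.mem_comap, ← this]
      exact hc
    intro a
    have := hle (show a ∈ commutator (Gam i) by rw [hperf i]; trivial)
    exact this
  calc J.card ≤ (A ∪ B).card := Finset.card_le_card hsub
    _ ≤ A.card + B.card := Finset.card_union_le _ _
    _ ≤ 2 * r := by omega

/-- The group lemma in the form `2 ^ (number of bad factors) ≤ index ^ 2`. -/
theorem pow_bad_le (hperf : ∀ i, commutator (Gam i) = ⊤) (H : Subgroup (∀ i, Gam i))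
    (h0 : H.index ≠ 0) (J : Finset I)
    (hJ : ∀ i ∈ J, ¬ ∀ a : Gam i, Pi.mulSingle i a ∈ H) : 2 ^ J.card ≤ H.index ^ 2 := by
  classical
  obtain ⟨e⟩ : Nonempty (I ≃ Fin (Fintype.card I)) := ⟨Fintype.equivFin I⟩
  let lt : I → I → Prop := fun i j => e i < e j
  let gt : I → I → Prop := fun i j => e j < e i
  have i1 : IsStrictTotalOrder I lt :=
    { irrefl := fun i => lt_irrefl (e i)
      trans := fun i j k h1 h2 => lt_trans h1 h2
      trichotomous := fun i j h1 h2 => e.injective (le_antisymm (not_lt.mp h2) (not_lt.mp h1)) }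
  have i2 : IsStrictTotalOrder I gt :=
    { irrefl := fun i => lt_irrefl (e i)
      trans := fun i j k h1 h2 => lt_trans h2 h1
      trichotomous := fun i j h1 h2 => e.injective (le_antisymm (not_lt.mp h1) (not_lt.mp h2)) }
  let A : Finset I := J.filter (fun i => ∃ a : Gam i, ¬ Up lt H i a)
  let B : Finset I := J.filter (fun i => ∃ a : Gam i, ¬ Up gt H i a)
  have hA : 2 ^ A.card ≤ H.index := by
    have hex : ∀ i : I, ∃ a : Gam i, i ∈ A → ¬ Up lt H i a := by
      intro i
      by_cases hi : i ∈ A
      · obtain ⟨a, ha⟩ := (Finset.mem_filter.mp hi).2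
        exact ⟨a, fun _ => ha⟩
      · exact ⟨1, fun h => absurd h hi⟩
    choose a ha using hex
    exact pow_card_le_index lt H h0 A a (fun i hi => ha i hi)
  have hB : 2 ^ B.card ≤ H.index := by
    have hex : ∀ i : I, ∃ a : Gam i, i ∈ B → ¬ Up gt H i a := by
      intro i
      by_cases hi : i ∈ B
      · obtain ⟨a, ha⟩ := (Finset.mem_filter.mp hi).2
        exact ⟨a, fun _ => ha⟩
      · exact ⟨1, fun h => absurd h hi⟩
    choose a ha using hex
    exact pow_card_le_index gt H h0 B a (fun i hi => ha i hi)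
  have hsub : J ⊆ A ∪ B := by
    intro i hi
    by_contra hn
    rw [Finset.mem_union, not_or] at hn
    obtain ⟨hnA, hnB⟩ := hn
    have h1 : ∀ a : Gam i, Up lt H i a := by
      by_contra hc
      push Not at hc
      exact hnA (Finset.mem_filter.mpr ⟨hi, hc⟩)
    have h2 : ∀ a : Gam i, Up gt H i a := by
      by_contra hc
      push Not at hc
      exact hnB (Finset.mem_filter.mpr ⟨hi, hc⟩)
    apply hJ i hi
    have hle : commutator (Gam i) ≤ H.comap (MonoidHom.mulSingle Gam i) := by
      rw [commutator_eq_closure, Subgroup.closure_le]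
      rintro c ⟨a, b, rfl⟩
      obtain ⟨h, hh, hha, hh1⟩ := h1 a
      obtain ⟨k, hk, hkb, hk1⟩ := h2 b
      have hc : ⁅h, k⁆ ∈ H := by
        rw [commutatorElement_def]
        exact H.mul_mem (H.mul_mem (H.mul_mem hh hk) (H.inv_mem hh)) (H.inv_mem hk)
      have : ⁅h, k⁆ = MonoidHom.mulSingle Gam i ⁅a, b⁆ := by
        funext j
        rw [commutatorElement_def, MonoidHom.mulSingle_apply]
        simp only [Pi.mul_apply, Pi.inv_apply]
        by_cases hji : j = i
        · subst hji
          rw [Pi.mulSingle_eq_same, hha, hkb, commutatorElement_def]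
        · rw [Pi.mulSingle_eq_of_ne hji]
          have hne : e j ≠ e i := fun h => hji (e.injective h)
          rcases lt_or_gt_of_ne hne with hlt | hgt
          · rw [hk1 j hlt]; simp
          · rw [hh1 j hgt]; simp
      rw [SetLike.mem_coe, Subgroup.mem_comap, ← this]
      exact hc
    intro a
    have := hle (show a ∈ commutator (Gam i) by rw [hperf i]; trivial)
    exact this
  calc 2 ^ J.card ≤ 2 ^ (A.card + B.card) := Nat.pow_le_pow_right (by norm_num)
        ((Finset.card_le_card hsub).trans (Finset.card_union_le _ _))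
    _ = 2 ^ A.card * 2 ^ B.card := pow_add _ _ _
    _ ≤ H.index * H.index := Nat.mul_le_mul hA hB
    _ = H.index ^ 2 := (sq _).symm

open Classical in
/-- The exact form asked for by helper88 (Pool/Agent/CPT/Grp.lean, perfect_pi). -/
theorem perfect_pi {J : Type} [Fintype J] [DecidableEq J] {Γ : Type} [Group Γ] [Finite Γ]
    (hp : commutator Γ = ⊤) (H : Subgroup (J → Γ)) :
    2 ^ (Finset.univ.filter (fun i => ¬ ∀ g : Γ, Pi.mulSingle i g ∈ H)).card ≤ H.index ^ 2 := by
  have h0 : H.index ≠ 0 := by
    have : Finite ((J → Γ) ⧸ H) := inferInstance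
    exact Subgroup.index_ne_zero_of_finite
  exact pow_bad_le (fun _ => hp) H h0 _ (fun i hi => (Finset.mem_filter.mp hi).2)

end Pool.Agent.Hhelper38.CPT.Grp
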