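import Mathlib

/-
Topology lemma of CPT + counting <> P (MP_128e7d_lc, notes 3281 / 3282, step (5)), cochain form.
On the grid [l]^3, outside a product set X x Y x Z with X, Y, Z proper subsets of [l], every
closed 1-cochain (closed on the unit squares with all four vertices outside the product set)
is exact.
-/

namespace Pool.Agent.Hhelper38.CPT.Topo

variable {R : Type*} [CommRing R]

/-- outside the product set -/
def Good (X Y Z : Set ℕ) (x y z : ℕ) : Prop := x ∉ X ∨ y ∉ Y ∨ z ∉ Z

/-- prefix sums along the first coordinate -/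
def Ax (f : ℕ → ℕ → ℕ → R) (x y z : ℕ) : R := ∑ t ∈ Finset.range x, f t y z
/-- prefix sums along the second coordinate -/
def Ay (f : ℕ → ℕ → ℕ → R) (x y z : ℕ) : R := ∑ t ∈ Finset.range y, f x t z
/-- prefix sums along the third coordinate -/
def Az (f : ℕ → ℕ → ℕ → R) (x y z : ℕ) : R := ∑ t ∈ Finset.range z, f x y t

theorem Ax_succ (f : ℕ → ℕ → ℕ → R) (x y z : ℕ) : Ax f (x + 1) y z = Ax f x y z + f x y z :=
  Finset.sum_range_succ _ _
theorem Ay_succ (f : ℕ → ℕ → ℕ → R) (x y z : ℕ) : Ay f x (y + 1) z = Ay f x y z + f x y z :=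
  Finset.sum_range_succ _ _
theorem Az_succ (f : ℕ → ℕ → ℕ → R) (x y z : ℕ) : Az f x y (z + 1) = Az f x y z + f x y z :=
  Finset.sum_range_succ _ _

/-- closedness on the good squares in the three directions -/
structure Closed (l : ℕ) (X Y Z : Set ℕ) (fx fy fz : ℕ → ℕ → ℕ → R) : Prop where
  xy : ∀ x y z, x + 1 < l → y + 1 < l → z < l → Good X Y Z x y z → Good X Y Z (x + 1) y z →
    Good X Y Z x (y + 1) z → Good X Y Z (x + 1) (y + 1) z →
    fx x y z + fy (x + 1) y z = fx x (y + 1) z + fy x y z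
  xz : ∀ x y z, x + 1 < l → y < l → z + 1 < l → Good X Y Z x y z → Good X Y Z (x + 1) y z →
    Good X Y Z x y (z + 1) → Good X Y Z (x + 1) y (z + 1) →
    fx x y z + fz (x + 1) y z = fx x y (z + 1) + fz x y z
  yz : ∀ x y z, x < l → y + 1 < l → z + 1 < l → Good X Y Z x y z → Good X Y Z x (y + 1) z →
    Good X Y Z x y (z + 1) → Good X Y Z x (y + 1) (z + 1) →
    fy x y z + fz x (y + 1) z = fy x y (z + 1) + fz x y z

omit [CommRing R] in
/-- a sequence that does not change below `l` is constant -/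
theorem const_of_step (l : ℕ) (D : ℕ → R) (h : ∀ t, t + 1 < l → D (t + 1) = D t) (a b : ℕ)
    (ha : a < l) (hb : b < l) : D a = D b := by
  have key : ∀ t, t < l → D t = D 0 := by
    intro t
    induction t with
    | zero => intro _; rfl
    | succ n ih => intro hn; rw [h n hn, ih (by omega)]
  rw [key a ha, key b hb]

section

variable {l : ℕ} {X Y Z : Set ℕ} {fx fy fz : ℕ → ℕ → ℕ → R} (hc : Closed l X Y Z fx fy fz)
include hc

/-- strips along x between y and y + 1 -/
theorem strip_x_y (y z : ℕ) (hy : y + 1 < l) (hz : z < l) (h : z ∉ Z ∨ (y ∉ Y ∧ y + 1 ∉ Y))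
    (a b : ℕ) (ha : a < l) (hb : b < l) :
    Ax fx a (y + 1) z - Ax fx a y z - fy a y z = Ax fx b (y + 1) z - Ax fx b y z - fy b y z := by
  apply const_of_step l (fun t => Ax fx t (y + 1) z - Ax fx t y z - fy t y z) _ a b ha hb
  intro t ht
  have := hc.xy t y z ht hy hz (by unfold Good; tauto) (by unfold Good; tauto)
    (by unfold Good; tauto) (by unfold Good; tauto)
  simp only [Ax_succ]
  linear_combination -this

/-- strips along y between x and x + 1 -/
theorem strip_y_x (x z : ℕ) (hx : x + 1 < l) (hz : z < l) (h : z ∉ Z ∨ (x ∉ X ∧ x + 1 ∉ X))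
    (a b : ℕ) (ha : a < l) (hb : b < l) :
    Ay fy (x + 1) a z - Ay fy x a z - fx x a z = Ay fy (x + 1) b z - Ay fy x b z - fx x b z := by
  apply const_of_step l (fun t => Ay fy (x + 1) t z - Ay fy x t z - fx x t z) _ a b ha hb
  intro t ht
  have := hc.xy x t z hx ht hz (by unfold Good; tauto) (by unfold Good; tauto)
    (by unfold Good; tauto) (by unfold Good; tauto)
  simp only [Ay_succ]
  linear_combination this

/-- strips along x between z and z + 1 -/
theorem strip_x_z (y z : ℕ) (hy : y < l) (hz : z + 1 < l) (h : y ∉ Y ∨ (z ∉ Z ∧ z + 1 ∉ Z))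
    (a b : ℕ) (ha : a < l) (hb : b < l) :
    Ax fx a y (z + 1) - Ax fx a y z - fz a y z = Ax fx b y (z + 1) - Ax fx b y z - fz b y z := by
  apply const_of_step l (fun t => Ax fx t y (z + 1) - Ax fx t y z - fz t y z) _ a b ha hb
  intro t ht
  have := hc.xz t y z ht hy hz (by unfold Good; tauto) (by unfold Good; tauto)
    (by unfold Good; tauto) (by unfold Good; tauto)
  simp only [Ax_succ]
  linear_combination -this

/-- strips along y between z and z + 1 -/
theorem strip_y_z (x z : ℕ) (hx : x < l) (hz : z + 1 < l) (h : x ∉ X ∨ (z ∉ Z ∧ z + 1 ∉ Z))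
    (a b : ℕ) (ha : a < l) (hb : b < l) :
    Ay fy x a (z + 1) - Ay fy x a z - fz x a z = Ay fy x b (z + 1) - Ay fy x b z - fz x b z := by
  apply const_of_step l (fun t => Ay fy x t (z + 1) - Ay fy x t z - fz x t z) _ a b ha hb
  intro t ht
  have := hc.yz x t z hx ht hz (by unfold Good; tauto) (by unfold Good; tauto)
    (by unfold Good; tauto) (by unfold Good; tauto)
  simp only [Ay_succ]
  linear_combination -this

/-- rectangles in the good plane y -/
theorem rect_xz (y : ℕ) (hy : y < l) (h : y ∉ Y) (a b c d : ℕ) (ha : a < l) (hb : b < l)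
    (hc' : c < l) (hd : d < l) :
    (Ax fx b y c - Ax fx a y c) - (Az fz b y c - Az fz a y c)
      = (Ax fx b y d - Ax fx a y d) - (Az fz b y d - Az fz a y d) := by
  apply const_of_step l (fun t => (Ax fx b y t - Ax fx a y t) - (Az fz b y t - Az fz a y t))
    _ c d hc' hd
  intro t ht
  have := strip_x_z hc y t hy ht (Or.inl h) a b ha hb
  simp only [Az_succ]
  linear_combination -this

/-- rectangles in the good plane x -/
theorem rect_yz (x : ℕ) (hx : x < l) (h : x ∉ X) (a b c d : ℕ) (ha : a < l) (hb : b < l)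
    (hc' : c < l) (hd : d < l) :
    (Ay fy x b c - Ay fy x a c) - (Az fz x b c - Az fz x a c)
      = (Ay fy x b d - Ay fy x a d) - (Az fz x b d - Az fz x a d) := by
  apply const_of_step l (fun t => (Ay fy x b t - Ay fy x a t) - (Az fz x b t - Az fz x a t))
    _ c d hc' hd
  intro t ht
  have := strip_y_z hc x t hx ht (Or.inl h) a b ha hb
  simp only [Az_succ]
  linear_combination -this

/-- rectangles in the good plane z -/
theorem rect_xy (z : ℕ) (hz : z < l) (h : z ∉ Z) (a b c d : ℕ) (ha : a < l) (hb : b < l)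
    (hc' : c < l) (hd : d < l) :
    (Ax fx b c z - Ax fx a c z) - (Ay fy b c z - Ay fy a c z)
      = (Ax fx b d z - Ax fx a d z) - (Ay fy b d z - Ay fy a d z) := by
  apply const_of_step l (fun t => (Ax fx b t z - Ax fx a t z) - (Ay fy b t z - Ay fy a t z))
    _ c d hc' hd
  intro t ht
  have := strip_x_y hc t z ht hz (Or.inl h) a b ha hb
  simp only [Ay_succ]
  linear_combination -this

/-- the rectangle at an arbitrary height with all four sides in good planes -/
theorem rect_any (z0 : ℕ) (hz0 : z0 < l) (hZ : z0 ∉ Z) (x0 x y0 y z : ℕ) (hx0 : x0 < l)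
    (hx : x < l) (hy0 : y0 < l) (hy : y < l) (hz : z < l) (hX0 : x0 ∉ X) (hX : x ∉ X)
    (hY0 : y0 ∉ Y) (hY : y ∉ Y) :
    (Ax fx x y z - Ax fx x0 y z) + (Ay fy x0 y z - Ay fy x0 y0 z)
      = (Ax fx x y0 z - Ax fx x0 y0 z) + (Ay fy x y z - Ay fy x y0 z) := by
  have h1 := rect_xy hc z0 hz0 hZ x0 x y0 y hx0 hx hy0 hy
  have h2 := rect_xz hc y hy hY x0 x z z0 hx0 hx hz hz0
  have h3 := rect_xz hc y0 hy0 hY0 x0 x z z0 hx0 hx hz hz0
  have h4 := rect_yz hc x hx hX y0 y z z0 hy0 hy hz hz0
  have h5 := rect_yz hc x0 hx0 hX0 y0 y z z0 hy0 hy hz hz0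
  linear_combination -h1 + h2 - h3 - h4 + h5

open Classical in
theorem exact_compl (x0 y0 z0 : ℕ) (hx0 : x0 < l) (hy0 : y0 < l) (hz0 : z0 < l)
    (hX0 : x0 ∉ X) (hY0 : y0 ∉ Y) (hZ0 : z0 ∉ Z) :
    ∃ g : ℕ → ℕ → ℕ → R,
      (∀ x y z, x + 1 < l → y < l → z < l → Good X Y Z x y z → Good X Y Z (x + 1) y z →
        fx x y z = g (x + 1) y z - g x y z) ∧
      (∀ x y z, x < l → y + 1 < l → z < l → Good X Y Z x y z → Good X Y Z x (y + 1) z →
        fy x y z = g x (y + 1) z - g x y z) ∧
      (∀ x y z, x < l → y < l → z + 1 < l → Good X Y Z x y z → Good X Y Z x y (z + 1) →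
        fz x y z = g x y (z + 1) - g x y z) := by
  refine ⟨fun x y z => if y ∉ Y ∨ z ∉ Z then
      Az fz x0 y0 z + (Ay fy x0 y z - Ay fy x0 y0 z) + (Ax fx x y z - Ax fx x0 y z)
    else Az fz x0 y0 z + (Ax fx x y0 z - Ax fx x0 y0 z) + (Ay fy x y z - Ay fy x y0 z),
    ?_, ?_, ?_⟩
  · intro x y z hx hy hz g1 g2
    by_cases h : y ∉ Y ∨ z ∉ Z
    · simp only [h, if_true, Ax_succ]
      ring
    · simp only [h, if_false, Ax_succ]
      have hxx : x ∉ X ∧ x + 1 ∉ X := by unfold Good at g1 g2; tauto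
      have := strip_y_x hc x z hx hz (Or.inr hxx) y y0 hy hy0
      linear_combination -this
  · intro x y z hx hy hz g1 g2
    by_cases h1 : y ∉ Y ∨ z ∉ Z
    · by_cases h2 : y + 1 ∉ Y ∨ z ∉ Z
      · simp only [h1, h2, if_true, Ay_succ]
        have := strip_x_y hc y z hy hz (by tauto) x x0 hx hx0
        linear_combination -this
      · simp only [h1, h2, if_true, if_false, Ay_succ]
        have hy' : y ∉ Y := by tauto
        have hx' : x ∉ X := by unfold Good at g2; tauto
        have := rect_any hc z0 hz0 hZ0 x0 x y0 y z hx0 hx hy0 (by omega) hz hX0 hx' hY0 hy'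
        linear_combination this
    · by_cases h2 : y + 1 ∉ Y ∨ z ∉ Z
      · simp only [h1, h2, if_true, if_false]
        have hy' : y + 1 ∉ Y := by tauto
        have hx' : x ∉ X := by unfold Good at g1; tauto
        have := rect_any hc z0 hz0 hZ0 x0 x y0 (y + 1) z hx0 hx hy0 (by omega) hz hX0 hx' hY0 hy'
        have h5 := Ay_succ fy x y z
        linear_combination -this - h5
      · simp only [h1, h2, if_false, Ay_succ]
        ring
  · intro x y z hx hy hz g1 g2
    by_cases h1 : y ∉ Y ∨ z ∉ Z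
    · by_cases h2 : y ∉ Y ∨ z + 1 ∉ Z
      · simp only [h1, h2, if_true, Az_succ]
        have h3 := strip_y_z hc x0 z hx0 hz (Or.inl hX0) y y0 hy hy0
        have h4 := strip_x_z hc y z hy hz (by tauto) x x0 hx hx0
        linear_combination -h3 - h4
      · simp only [h1, h2, if_true, if_false, Az_succ]
        have hz' : z ∉ Z := by tauto
        have hx' : x ∉ X := by unfold Good at g2; tauto
        have h3 := strip_x_z hc y0 z hy0 hz (Or.inl hY0) x x0 hx hx0
        have h4 := strip_y_z hc x z hx hz (Or.inl hx') y y0 hy hy0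
        have h5 := rect_xy hc z (by omega) hz' x0 x y0 y hx0 hx hy0 hy
        linear_combination -h3 - h4 - h5
    · by_cases h2 : y ∉ Y ∨ z + 1 ∉ Z
      · simp only [h1, h2, if_true, if_false, Az_succ]
        have hz' : z + 1 ∉ Z := by tauto
        have hx' : x ∉ X := by unfold Good at g1; tauto
        have h3 := strip_x_z hc y0 z hy0 hz (Or.inl hY0) x x0 hx hx0
        have h4 := strip_y_z hc x z hx hz (Or.inl hx') y y0 hy hy0
        have h5 := rect_xy hc (z + 1) (by omega) hz' x0 x y0 y hx0 hx hy0 hy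
        linear_combination -h3 - h4 + h5
      · simp only [h1, h2, if_false, Az_succ]
        have hx' : x ∉ X := by unfold Good at g1; tauto
        have h3 := strip_x_z hc y0 z hy0 hz (Or.inl hY0) x x0 hx hx0
        have h4 := strip_y_z hc x z hx hz (Or.inl hx') y y0 hy hy0
        linear_combination -h3 - h4

end

end Pool.Agent.Hhelper38.CPT.Topo
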